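import Pool.Agent.V1187.Comp4

/-!
# Complementary spectra for type II factorisations of Lebesgue measure

Every spectrum of the infinite convolution of the factors `ν₁, ν₃, ν₅, …` is complemented to the integers
by a spectrum of the infinite convolution of the factors `ν₂, ν₄, ν₆, …`.
-/

set_option autoImplicit false

open MeasureTheory

namespace Pool.Agent.Results.MP_47966f_an.Complementary

open Pool.Agent.V1187.SP Pool.Agent.V1187.CS

/-- Let `N i ≥ 2` (`N i` is the `N_{i+1}` of the text), let `μ` be the infinite convolution of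
`ν₁, ν₃, ν₅, …` and `ν` that of `ν₂, ν₄, ν₆, …`. For every spectrum `L` of `μ` there is a spectrum
`L'` of `ν` with `L ⊕ L' = ℤ`. -/
theorem result (N : ℕ → ℕ) (hN : ∀ k, 2 ≤ N k) (μ ν : Measure ℝ)
    (hμ : IsInfConv (fun i => nu N (2 * i)) μ) (hν : IsInfConv (fun i => nu N (2 * i + 1)) ν)
    (L : Set ℝ) (hL : IsSpectralPair μ L) :
    ∃ L' : Set ℝ, IsSpectralPair ν L' ∧ OplusZ L L' :=
  complementary hN hμ hν hL

end Pool.Agent.Results.MP_47966f_an.Complementary
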